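import Pool.Agent.H572R4.QA.Defs

set_option autoImplicit false

namespace Pool.Agent.H572R4.QA

open Finset Pool.Agent.H572R2

variable {N : ℕ}

/-- Influence of `i`. -/
noncomputable def inf1 (f : (Fin N → Bool) → ℝ) (i : Fin N) : ℝ := EE (fun x => dd f i x ^ 2) / 4

/-- The potential, second version. -/
noncomputable def Phi2 (γ ε : ℝ) (T : ℕ) (ca m0 K S cr base : ℝ) (s : ℝ)
    (f : (Fin N → Bool) → ℝ) (w : Fin N → (Fin N → Bool) → ℝ) (A : Finset (Fin N)) : ℝ :=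
  1 / (4 * ca * (m0 * Real.exp ((5 + 4 * Real.log K) * s))) * Yh γ ε T f A
    + Real.exp (s - S) * ∑ i ∈ A, inf1 f i
    + ca * ∑ i ∈ A, EE (w i) + (cr * (S + 1 - s) + base)

end Pool.Agent.H572R4.QA
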