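import Pool.Agent.H572R4.QB.Defs2
import Pool.Agent.H572R4.QA.A1
import Pool.Agent.H746R2.AA.Basic

set_option autoImplicit false

namespace Pool.Agent.H572R4.QA

open Finset Pool.Agent.H572R2

variable {N : ℕ}

namespace E1aux

open A1aux

/-- transport -/
def tr (F : (Fin N → Bool) → ℝ) : (Fin N → ℤˣ) → ℝ := fun u => F ((eqv N).symm u)

lemma EE_eq_Ex (F : (Fin N → Bool) → ℝ) : EE F = Pool.Agent.H746R2.AA.Ex (tr F) := by
  unfold EE Pool.Agent.H746R2.AA.Ex tr
  rw [Fintype.card_fin, Equiv.sum_comp (eqv N).symm F]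

lemma var_eq_Cov (f : (Fin N → Bool) → ℝ) : var f = Pool.Agent.H746R2.AA.Cov (tr f) (tr f) := by
  unfold var Pool.Agent.H746R2.AA.Cov
  rw [EE_eq_Ex, EE_eq_Ex, sq (Pool.Agent.H746R2.AA.Ex (tr f))]
  congr 1
  refine Pool.Agent.H746R2.AA.Ex_congr fun x => ?_
  simp only [tr, sq]

lemma inf1_eq_Inf (f : (Fin N → Bool) → ℝ) (i : Fin N) :
    inf1 f i = Pool.Agent.H746R2.AA.Inf (tr f) i := by
  unfold inf1 Pool.Agent.H746R2.AA.Inf
  rw [EE_eq_Ex, div_eq_mul_inv, ← Pool.Agent.H746R2.AA.Ex_mul_right]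
  refine Pool.Agent.H746R2.AA.Ex_congr fun x => ?_
  simp only [tr, Pool.Agent.H746R2.AA.D, dd]
  obtain ⟨y, rfl⟩ := (eqv N).surjective x
  rw [Equiv.symm_apply_apply]
  have hup : ∀ u : ℤˣ, (eqv N).symm (Function.update (eqv N y) i u) = Function.update y i (toB u) := by
    intro u
    funext j
    by_cases hj : j = i
    · subst hj; simp [eqv]
    · simp [eqv, hj, toB_toU]
  rw [hup, hup, sq_abs]
  have h1 : toB 1 = false := by decide
  have h2 : toB (-1) = true := by decide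
  rw [h1, h2]
  cases hy : y i
  · have e1 : Function.update y i false = y := by rw [← hy, Function.update_eq_self]
    have e2 : flp i y = Function.update y i true := by simp [flp, hy]
    rw [e1, e2]; ring
  · have e1 : Function.update y i true = y := by rw [← hy, Function.update_eq_self]
    have e2 : flp i y = Function.update y i false := by simp [flp, hy]
    rw [e1, e2]; ring

lemma fc_tr (d : ℕ) (f : (Fin N → Bool) → ℝ) (hd : DegLe d f) (S : Finset (Fin N)) (hS : d < S.card) :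
    Pool.Agent.H722R2.AA.fc (tr f) S = 0 := by
  unfold Pool.Agent.H722R2.AA.fc
  have h1 : ∑ u : Fin N → ℤˣ, tr f u * ∏ i ∈ S, Pool.Agent.H722R2.AA.sg u i
      = ∑ x : Fin N → Bool, f x * ∏ i ∈ S, (-1 : ℝ) ^ (x i).toNat := by
    rw [← Equiv.sum_comp (eqv N)]
    refine Finset.sum_congr rfl fun x _ => ?_
    simp only [tr]
    rw [Equiv.symm_apply_apply]
    congr 1
    refine Finset.prod_congr rfl fun i _ => ?_
    exact toU_cast (x i)
  rw [h1, hd S hS, zero_div]

end E1aux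

open E1aux

theorem sum_inf1_le (d : ℕ) (f : (Fin N → Bool) → ℝ) (hd : DegLe d f) :
    ∑ i, inf1 f i ≤ d * var f := by
  have h1 : ∑ i, inf1 f i
      = ∑ S : Finset (Fin N), (S.card : ℝ) * Pool.Agent.H722R2.AA.fc (tr f) S ^ 2 := by
    simp_rw [inf1_eq_Inf, Pool.Agent.H746R2.AA.Inf_eq]
    rw [Finset.sum_comm]
    refine Finset.sum_congr rfl fun S _ => ?_
    rw [Finset.sum_ite_mem, Finset.univ_inter, Finset.sum_const, nsmul_eq_mul]
  rw [h1, var_eq_Cov, Pool.Agent.H746R2.AA.Cov_eq, Finset.mul_sum,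
    ← Finset.add_sum_erase Finset.univ
      (fun S : Finset (Fin N) => (S.card : ℝ) * Pool.Agent.H722R2.AA.fc (tr f) S ^ 2)
      (Finset.mem_univ ∅)]
  simp only [Finset.card_empty, Nat.cast_zero, zero_mul, zero_add]
  refine Finset.sum_le_sum fun S _ => ?_
  by_cases h : d < S.card
  · rw [fc_tr d f hd S h]; simp
  · have h' : (S.card : ℝ) ≤ d := by exact_mod_cast not_lt.1 h
    rw [← sq]
    exact mul_le_mul_of_nonneg_right h' (sq_nonneg _)

end Pool.Agent.H572R4.QA
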