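import Pool.Agent.H572R4.QB.Defs2

set_option autoImplicit false

namespace Pool.Agent.H572R4.QA

open Finset Pool.Agent.H572R2

variable {N : ℕ}

lemma e2_chi_flp_same (S : Finset (Fin N)) {i : Fin N} (hi : i ∈ S) (x : Fin N → Bool) :
    ∏ j ∈ S, (-1 : ℝ) ^ (flp i x j).toNat = - ∏ j ∈ S, (-1 : ℝ) ^ (x j).toNat := by
  rw [← Finset.mul_prod_erase _ _ hi, ← Finset.mul_prod_erase _ (fun j => (-1 : ℝ) ^ (x j).toNat) hi]
  have h1 : ∏ j ∈ S.erase i, (-1 : ℝ) ^ (flp i x j).toNat =
      ∏ j ∈ S.erase i, (-1 : ℝ) ^ (x j).toNat := by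
    apply Finset.prod_congr rfl
    intro j hj
    rw [flp_ne (Finset.ne_of_mem_erase hj)]
  rw [h1, flp_same]
  cases x i <;> simp

lemma e2_chi_update (S : Finset (Fin N)) {i : Fin N} (hi : i ∉ S) (x : Fin N → Bool) (b : Bool) :
    ∏ j ∈ S, (-1 : ℝ) ^ (Function.update x i b j).toNat = ∏ j ∈ S, (-1 : ℝ) ^ (x j).toNat := by
  apply Finset.prod_congr rfl
  intro j hj
  rw [Function.update_of_ne]
  rintro rfl
  exact hi hj

lemma e2_update_flp (i : Fin N) (x : Fin N → Bool) (b : Bool) :
    Function.update (flp i x) i b = Function.update x i b := by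
  unfold flp
  simp

lemma e2_sum_update (F : (Fin N → Bool) → ℝ) (i : Fin N) (b : Bool) :
    ∑ x, F (Function.update x i b) =
      ∑ x, F x + (-1 : ℝ) ^ b.toNat * ∑ x, F x * (-1 : ℝ) ^ (x i).toNat := by
  have h0 : ∀ G : (Fin N → Bool) → ℝ, 2 * ∑ x, G x = ∑ x, (G x + G (flp i x)) := by
    intro G
    rw [Finset.sum_add_distrib, two_mul]
    congr 1
    exact (Equiv.sum_comp (flpEquiv i) G).symm
  have h1 : ∑ x, F x + (-1 : ℝ) ^ b.toNat * ∑ x, F x * (-1 : ℝ) ^ (x i).toNat =
      ∑ x, (F x + (-1 : ℝ) ^ b.toNat * (F x * (-1 : ℝ) ^ (x i).toNat)) := by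
    rw [Finset.sum_add_distrib, Finset.mul_sum]
  have h2 : 2 * ∑ x, F (Function.update x i b) =
      2 * (∑ x, F x + (-1 : ℝ) ^ b.toNat * ∑ x, F x * (-1 : ℝ) ^ (x i).toNat) := by
    rw [h1, h0, h0]
    apply Finset.sum_congr rfl
    intro x _
    rw [e2_update_flp, flp_same]
    have h3 : flp i x = Function.update x i (!(x i)) := rfl
    have h4 : Function.update x i (x i) = x := Function.update_eq_self i x
    cases hx : x i <;> cases b
    · rw [hx] at h3 h4
      rw [h4]
      simp
    · rw [hx] at h3 h4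
      simp only [Bool.not_false] at h3
      rw [← h3]
      simp
    · rw [hx] at h3 h4
      simp only [Bool.not_true] at h3
      rw [← h3]
      simp
    · rw [hx] at h3 h4
      rw [h4]
      simp
  linarith

lemma e2_degLe_update (d : ℕ) (f : (Fin N → Bool) → ℝ) (hd : DegLe d f) (i : Fin N) (b : Bool) :
    DegLe d (fun x => f (Function.update x i b)) := by
  intro S hS
  by_cases hi : i ∈ S
  · have h1 : ∑ x, f (Function.update x i b) * ∏ j ∈ S, (-1 : ℝ) ^ (x j).toNat =
        - ∑ x, f (Function.update x i b) * ∏ j ∈ S, (-1 : ℝ) ^ (x j).toNat := by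
      conv_lhs => rw [← Equiv.sum_comp (flpEquiv i)]
      rw [← Finset.sum_neg_distrib]
      apply Finset.sum_congr rfl
      intro x _
      show f (Function.update (flp i x) i b) * ∏ j ∈ S, (-1 : ℝ) ^ (flp i x j).toNat = _
      rw [e2_update_flp, e2_chi_flp_same S hi]
      ring
    linarith
  · have h1 : ∑ x, f (Function.update x i b) * ∏ j ∈ S, (-1 : ℝ) ^ (x j).toNat =
        ∑ x, (fun x => f x * ∏ j ∈ S, (-1 : ℝ) ^ (x j).toNat) (Function.update x i b) := by
      apply Finset.sum_congr rfl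
      intro x _
      show _ = f (Function.update x i b) * ∏ j ∈ S, (-1 : ℝ) ^ (Function.update x i b j).toNat
      rw [e2_chi_update S hi]
    rw [h1, e2_sum_update (fun x => f x * ∏ j ∈ S, (-1 : ℝ) ^ (x j).toNat)]
    have h2 : ∑ x, f x * ∏ j ∈ S, (-1 : ℝ) ^ (x j).toNat = 0 := hd S hS
    have h3 : ∑ x, (f x * ∏ j ∈ S, (-1 : ℝ) ^ (x j).toNat) * (-1 : ℝ) ^ (x i).toNat = 0 := by
      have h4 := hd (insert i S) (by rw [Finset.card_insert_of_notMem hi]; omega)
      rw [← h4]
      apply Finset.sum_congr rfl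
      intro x _
      rw [Finset.prod_insert hi]
      ring
    rw [h2, h3]
    ring

theorem degLe_mix (d : ℕ) (f : (Fin N → Bool) → ℝ) (hd : DegLe d f) (S : Finset (Fin N))
    (a : Fin N → Bool) : DegLe d (fun x => f (mix S a x)) := by
  induction S using Finset.induction_on with
  | empty =>
    simp only [mix_empty]
    exact hd
  | insert i S hi ih =>
    have h1 : ∀ x : Fin N → Bool, mix (insert i S) a x = mix S a (Function.update x i (a i)) := by
      intro x
      funext j
      unfold mix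
      by_cases hj : j = i
      · subst hj; simp [hi]
      · simp [hj]
    have h2 := e2_degLe_update d (fun x => f (mix S a x)) ih i (a i)
    have h3 : (fun x => f (mix (insert i S) a x)) =
        (fun x => (fun x => f (mix S a x)) (Function.update x i (a i))) := by
      funext x
      simp only [h1]
    rw [h3]
    exact h2

end Pool.Agent.H572R4.QA
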