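import Pool.Agent.H572R4.QB.Reveal2

set_option autoImplicit false

namespace Pool.Agent.H572R4.QA

open Finset Pool.Agent.H572R2

variable {N : ℕ}

theorem freeze2 {f : (Fin N → Bool) → ℝ} {w : Fin N → (Fin N → Bool) → ℝ}
    (γ ε : ℝ) (T : ℕ) (hT : 1 ≤ T) (ca m0 K S cr base s : ℝ) (hca : 0 < ca) (hm0 : 0 < m0)
    (hw : ∀ i x, 0 ≤ w i x)
    (A : Finset (Fin N)) (i : Fin N) (hi : i ∈ A)
    (hai : m0 * Real.exp ((5 + 4 * Real.log K) * s) < EE (w i)) :
    pp f (th γ ε T) i + Phi2 γ ε T ca m0 K S cr base s f w (A.erase i)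
      ≤ Phi2 γ ε T ca m0 K S cr base s f w A := by
  set M : ℝ := m0 * Real.exp ((5 + 4 * Real.log K) * s) with hM
  have hMpos : 0 < M := by rw [hM]; positivity
  have hp0 : 0 ≤ pp f (th γ ε T) i := by
    unfold pp
    apply EE_nonneg
    intro x
    unfold JJ
    split_ifs <;> norm_num
  have hY : Yh γ ε T f (A.erase i) + pp f (th γ ε T) i ^ 2 ≤ Yh γ ε T f A := by
    unfold Yh
    have e : ∀ t, ∑ j ∈ A, pp f (th γ ε (t + 1)) j ^ 2
        = ∑ j ∈ A.erase i, pp f (th γ ε (t + 1)) j ^ 2 + pp f (th γ ε (t + 1)) i ^ 2 := by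
      intro t
      exact (Finset.sum_erase_add A _ hi).symm
    have e2 : ∑ t ∈ Finset.range T, (1 / 2 : ℝ) ^ (T - 1 - t)
          * ∑ j ∈ A, pp f (th γ ε (t + 1)) j ^ 2
        = ∑ t ∈ Finset.range T, (1 / 2 : ℝ) ^ (T - 1 - t)
          * ∑ j ∈ A.erase i, pp f (th γ ε (t + 1)) j ^ 2
          + ∑ t ∈ Finset.range T, (1 / 2 : ℝ) ^ (T - 1 - t) * pp f (th γ ε (t + 1)) i ^ 2 := by
      rw [← Finset.sum_add_distrib]
      apply Finset.sum_congr rfl
      intro t _
      rw [e t]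
      ring
    have e3 : pp f (th γ ε T) i ^ 2
        ≤ ∑ t ∈ Finset.range T, (1 / 2 : ℝ) ^ (T - 1 - t) * pp f (th γ ε (t + 1)) i ^ 2 := by
      have h1 : (1 / 2 : ℝ) ^ (T - 1 - (T - 1)) * pp f (th γ ε ((T - 1 : ℕ) + 1)) i ^ 2
          ≤ ∑ t ∈ Finset.range T, (1 / 2 : ℝ) ^ (T - 1 - t) * pp f (th γ ε (t + 1)) i ^ 2 := by
        refine Finset.single_le_sum
          (f := fun t : ℕ => (1 / 2 : ℝ) ^ (T - 1 - t) * pp f (th γ ε (t + 1)) i ^ 2)
          (fun t _ => by positivity) (Finset.mem_range.2 (by omega))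
      have h2 : T - 1 + 1 = T := by omega
      simp only [Nat.sub_self, pow_zero, one_mul, h2] at h1
      exact h1
    linarith
  have hS1 : ∑ j ∈ A, inf1 f j
      = ∑ j ∈ A.erase i, inf1 f j + inf1 f i :=
    (Finset.sum_erase_add A _ hi).symm
  have hS2 : ∑ j ∈ A, EE (w j) = ∑ j ∈ A.erase i, EE (w j) + EE (w i) :=
    (Finset.sum_erase_add A _ hi).symm
  unfold Phi2
  rw [← hM, hS1, hS2]
  set p := pp f (th γ ε T) i with hp
  have hc : 0 < 1 / (4 * ca * M) := by positivity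
  have h1 : 1 / (4 * ca * M) * (Yh γ ε T f (A.erase i) + p ^ 2)
      ≤ 1 / (4 * ca * M) * Yh γ ε T f A := by
    apply mul_le_mul_of_nonneg_left hY hc.le
  have h2 : 0 ≤ Real.exp (s - S) * inf1 f i := mul_nonneg (Real.exp_pos _).le (inf1_nonneg f i)
  have h3 : ca * M ≤ ca * EE (w i) := mul_le_mul_of_nonneg_left hai.le hca.le
  have h4 : p ≤ 1 / (4 * ca * M) * p ^ 2 + ca * M := by
    have h5 : 1 / (4 * ca * M) * p ^ 2 + ca * M - p
        = 1 / (4 * ca * M) * (p - 2 * (ca * M)) ^ 2 := by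
      field_simp
      ring
    have h6 : 0 ≤ 1 / (4 * ca * M) * (p - 2 * (ca * M)) ^ 2 := by positivity
    linarith
  nlinarith [h1, h2, h3, h4]


theorem process2 (γ ε k s₀ : ℝ) (hε : 0 < ε) (hk : 0 ≤ k) (hs₀ : 0 ≤ s₀) (hγ : 0 < γ) (T : ℕ)
    (hT : 1 ≤ T) (ca m0 K S cr base : ℝ) (hca : 0 < ca) (hm0 : 0 < m0) (hK : 1 ≤ K) (hS : 0 ≤ S)
    (hsmall : 4 * ca * (m0 * Real.exp ((5 + 4 * Real.log K) * S)) ≤ 1)
    (hcr : th γ ε T * s₀ / 2 + 4 * (k / (4 * ε ^ 2)) * (s₀ / γ) / (ca * K)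
      + (1 / 2 : ℝ) ^ T * (s₀ / γ) / (5 * ca * m0) ≤ cr)
    (hbase : th γ ε T * s₀ / 4 ≤ base) :
    ∀ (n : ℕ) (A : Finset (Fin N)), A.card = n → ∀ (s : ℝ), 0 ≤ s → s ≤ S + 1 →
      ∀ (f : (Fin N → Bool) → ℝ) (w : Fin N → (Fin N → Bool) → ℝ), Hyp f w ε k s₀ →
        var f ≤ ∑ i ∈ Aᶜ, pp f (th γ ε T) i + Phi2 γ ε T ca m0 K S cr base s f w A := by
  have hth : 0 < th γ ε T := by
    unfold th
    have : (0 : ℝ) ≤ 8 * ε * T := by positivity
    linarith
  have hcr0 : 0 ≤ cr := by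
    refine le_trans ?_ hcr
    have h1 : 0 ≤ th γ ε T * s₀ / 2 := by positivity
    have h2 : 0 ≤ 4 * (k / (4 * ε ^ 2)) * (s₀ / γ) / (ca * K) := by
      have hK0 : 0 < K := by linarith
      positivity
    have h3 : 0 ≤ (1 / 2 : ℝ) ^ T * (s₀ / γ) / (5 * ca * m0) := by positivity
    linarith
  -- the base case
  have hbc : ∀ (A : Finset (Fin N)) (s : ℝ), 0 ≤ s → s ≤ S + 1 → (S ≤ s ∨ A = ∅) →
      ∀ (f : (Fin N → Bool) → ℝ) (w : Fin N → (Fin N → Bool) → ℝ), Hyp f w ε k s₀ →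
        var f ≤ ∑ i ∈ Aᶜ, pp f (th γ ε T) i + Phi2 γ ε T ca m0 K S cr base s f w A := by
    intro A s hs0 hsS hor f w H
    have hp0 : ∀ i, 0 ≤ pp f (th γ ε T) i := fun i => (pp_facts f i).1 _
    have h1 := var_le_inf1 f
    have hsplit : ∑ i, inf1 f i = ∑ i ∈ Aᶜ, inf1 f i + ∑ i ∈ A, inf1 f i := by
      rw [add_comm]
      exact (Finset.sum_add_sum_compl A _).symm
    have hAc : ∑ i ∈ Aᶜ, inf1 f i ≤ th γ ε T * s₀ / 4 + (∑ i ∈ Aᶜ, pp f (th γ ε T) i) / 4 := by
      refine (Finset.sum_le_sum fun i _ => inf1_le H (th γ ε T) hth i).trans ?_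
      rw [Finset.sum_add_distrib, ← Finset.sum_div, ← Finset.sum_div, ← Finset.mul_sum]
      have h5 : ∑ i ∈ Aᶜ, EE (dd f i) ≤ s₀ := by
        rw [← EE_sum]
        refine (EE_mono (g := fun _ => s₀) fun x => ?_).trans (le_of_eq (EE_const s₀))
        refine le_trans ?_ (H.infl x)
        exact Finset.sum_le_sum_of_subset_of_nonneg (Finset.subset_univ _)
          (fun i _ _ => abs_nonneg _)
      have := mul_le_mul_of_nonneg_left h5 hth.le
      linarith
    have hA0 : 0 ≤ ∑ i ∈ A, inf1 f i := Finset.sum_nonneg (fun i _ => inf1_nonneg f i)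
    have hAc0 : 0 ≤ ∑ i ∈ Aᶜ, pp f (th γ ε T) i := Finset.sum_nonneg (fun i _ => hp0 i)
    have hY : 0 ≤ Yh γ ε T f A := by
      unfold Yh
      refine Finset.sum_nonneg (fun t _ => mul_nonneg (by positivity) ?_)
      exact Finset.sum_nonneg (fun i _ => sq_nonneg _)
    have hW : 0 ≤ ∑ i ∈ A, EE (w i) := Finset.sum_nonneg (fun i _ => EE_nonneg (H.w0 i))
    have hc : 0 ≤ cr * (S + 1 - s) := mul_nonneg hcr0 (by linarith)
    have hcoef : 0 ≤ 1 / (4 * ca * (m0 * Real.exp ((5 + 4 * Real.log K) * s))) * Yh γ ε T f A := by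
      refine mul_nonneg ?_ hY
      positivity
    have hexp : ∑ i ∈ A, inf1 f i ≤ Real.exp (s - S) * ∑ i ∈ A, inf1 f i := by
      rcases hor with h | h
      · have he : 1 ≤ Real.exp (s - S) := by
          rw [← Real.exp_zero]
          exact Real.exp_le_exp.mpr (by linarith)
        nlinarith
      · subst h
        simp
    have hWca : 0 ≤ ca * ∑ i ∈ A, EE (w i) := mul_nonneg hca.le hW
    have hPhi : Phi2 γ ε T ca m0 K S cr base s f w A
      = 1 / (4 * ca * (m0 * Real.exp ((5 + 4 * Real.log K) * s))) * Yh γ ε T f A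
    + Real.exp (s - S) * ∑ i ∈ A, inf1 f i
    + ca * ∑ i ∈ A, EE (w i) + (cr * (S + 1 - s) + base) := rfl
    rw [hPhi]
    linarith
  intro n
  induction n with
  | zero =>
    intro A hA s hs0 hsS f w H
    exact hbc A s hs0 hsS (Or.inr (Finset.card_eq_zero.mp hA)) f w H
  | succ n ih =>
    intro A hA s hs0 hsS f w H
    by_cases hSs : S ≤ s
    · exact hbc A s hs0 hsS (Or.inl hSs) f w H
    push Not at hSs
    have hne : A.Nonempty := by
      rw [← Finset.card_pos, hA]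
      exact Nat.succ_pos n
    by_cases hex : ∃ i ∈ A, m0 * Real.exp ((5 + 4 * Real.log K) * s) < EE (w i)
    · obtain ⟨i, hi, hai⟩ := hex
      have h1 := ih (A.erase i) (by rw [Finset.card_erase_of_mem hi, hA]; rfl) s hs0 hsS f w H
      have h2 := freeze2 (f := f) (w := w) γ ε T hT ca m0 K S cr base s hca hm0 H.w0 A i hi hai
      have h3 : (A.erase i)ᶜ = insert i Aᶜ := by
        rw [Finset.compl_erase]
      rw [h3, Finset.sum_insert (by simp [hi])] at h1
      linarith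
    · push Not at hex
      have hcard : (0 : ℝ) < (A.card : ℝ) := by
        exact_mod_cast Finset.card_pos.mpr hne
      have hcard1 : (1 : ℝ) ≤ (A.card : ℝ) := by
        exact_mod_cast Finset.card_pos.mpr hne
      have hinv : (1 : ℝ) / A.card ≤ 1 := by
        rw [div_le_one hcard]; exact hcard1
      have hinv0 : (0 : ℝ) ≤ (1 : ℝ) / A.card := by positivity
      have h0 := reveal2 H hε hk hs₀ γ hγ T hT ca m0 K S cr base s hca hm0 hK hs0 hSs.le
        hsmall hcr A hne hex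
      refine le_trans ?_ h0
      rw [le_div_iff₀ hcard]
      have hcs : var f * (A.card : ℝ) = ∑ _j ∈ A, var f := by
        rw [Finset.sum_const, nsmul_eq_mul, mul_comm]
      rw [hcs]
      refine Finset.sum_le_sum (fun j hj => ?_)
      have hc : (A.erase j).card = n := by rw [Finset.card_erase_of_mem hj, hA]; rfl
      have ht := ih (A.erase j) hc (s + 1 / A.card) (by linarith) (by linarith) (rs j true f)
        (fun i => rs j true (w i)) (hyp_rs H j true)
      have hf := ih (A.erase j) hc (s + 1 / A.card) (by linarith) (by linarith) (rs j false f)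
        (fun i => rs j false (w i)) (hyp_rs H j false)
      have hv := var_rs f j
      have hm := mean_diff f j
      have hsq : (EE (rs j true f) - EE (rs j false f)) ^ 2 ≤ EE (dd f j) ^ 2 := by
        rw [← sq_abs]
        exact pow_le_pow_left₀ (abs_nonneg _) hm 2
      linarith

end Pool.Agent.H572R4.QA
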