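import Pool.Agent.H572R4.QB.E2
import Pool.Agent.H572R4.QB.E5
import Pool.Agent.H572R4.QA.AS
import Pool.Agent.H572R4.QA.B6a
import Pool.Agent.H572R4.QA.C2

set_option autoImplicit false

namespace Pool.Agent.H572R4.QA

open Finset Pool.Agent.H572R2

variable {N : ℕ}

theorem main02_num (C d V ε τ L P : ℝ) (_hC : 0 < C) (hd : 1 ≤ d) (hV : 0 < V) (hV1 : V ≤ 1)
    (hε : 0 < ε) (hL : L = Real.log (4 * d / V)) (hP : P = Real.log (2 * d) * L)
    (hτ : τ = Real.exp (-C * P)) (hτε : τ ≤ ε) :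
    Real.exp (-(4 * C + 18) * P) ≤ (3 * V * τ / (8 * (512 * d ^ 4 / ε))) ^ 2 := by
  have hd0 : 0 < d := by linarith
  have h4 : 0 < 4 * d / V := by positivity
  have hL1 : 1 ≤ L := by
    rw [hL, Real.le_log_iff_exp_le h4]
    have h1 : Real.exp 1 < 2.7182818286 := Real.exp_one_lt_d9
    have h2 : (4:ℝ) ≤ 4 * d / V := by
      rw [le_div_iff₀ hV]
      nlinarith
    linarith
  have hlog2 : 0.69 ≤ Real.log (2 * d) := by
    have h1 : Real.log 2 ≤ Real.log (2 * d) := Real.log_le_log (by norm_num) (by linarith)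
    have h2 := Real.log_two_gt_d9
    linarith
  have hLP : 0.69 * L ≤ P := by
    rw [hP]
    exact mul_le_mul_of_nonneg_right hlog2 (by linarith)
  have hexpL : Real.exp (-L) = V / (4 * d) := by
    rw [Real.exp_neg, hL, Real.exp_log h4]
    field_simp
  have hτ0 : 0 < τ := by rw [hτ]; exact Real.exp_pos _
  have he2 : Real.exp (-2) ≤ 3 / 16 := by
    have h1 : Real.exp (-2) = Real.exp (-1) * Real.exp (-1) := by
      rw [← Real.exp_add]; norm_num
    have h2 : Real.exp (-1) < 0.3678794412 := Real.exp_neg_one_lt_d9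
    have h3 := Real.exp_pos (-1)
    rw [h1]
    nlinarith
  have key : Real.exp (-(2 * C * P + 4 * L + 2)) ≤ 3 * V * τ / (8 * (512 * d ^ 4 / ε)) := by
    have e1 : Real.exp (-(2 * C * P + 4 * L + 2)) =
        τ * τ * (V / (4 * d)) ^ 4 * Real.exp (-2) := by
      rw [hτ, ← hexpL, ← Real.exp_nat_mul, ← Real.exp_add, ← Real.exp_add, ← Real.exp_add]
      congr 1
      push_cast
      ring
    have e2 : 3 * V * τ / (8 * (512 * d ^ 4 / ε)) = 3 * V * τ * ε / (4096 * d ^ 4) := by
      field_simp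
      ring
    rw [e1, e2]
    calc τ * τ * (V / (4 * d)) ^ 4 * Real.exp (-2) ≤ τ * τ * (V / (4 * d)) ^ 4 * (3 / 16) := by
          gcongr
      _ = 3 * V ^ 4 * τ * τ / (4096 * d ^ 4) := by
          field_simp
          ring
      _ ≤ 3 * V * τ * ε / (4096 * d ^ 4) := by
          have hV4 : V ^ 4 ≤ V := by
            have h3 : V ^ 3 ≤ 1 := pow_le_one₀ hV.le hV1
            nlinarith
          gcongr
  calc Real.exp (-(4 * C + 18) * P) ≤ Real.exp (-(2 * C * P + 4 * L + 2)) ^ 2 := by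
        rw [← Real.exp_nat_mul]
        apply Real.exp_le_exp.mpr
        push_cast
        nlinarith
    _ ≤ _ := by
        have := Real.exp_pos (-(2 * C * P + 4 * L + 2))
        gcongr

theorem var_le_one' (f : (Fin N → Bool) → ℝ) (f0 : ∀ x, 0 ≤ f x) (f1 : ∀ x, f x ≤ 1) :
    var f ≤ 1 := by
  unfold var
  have h1 : EE (fun x => f x ^ 2) ≤ 1 := by
    rw [← EE_const (N := N) 1]
    exact EE_mono fun x => by nlinarith [f0 x, f1 x]
  nlinarith [sq_nonneg (EE f)]

/-- The quasi-polynomial Aaronson-Ambainis theorem, values in `[0,1]`. -/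
theorem main02 : ∃ C : ℝ, 0 < C ∧ ∀ (N : ℕ) (d : ℕ) (f : (Fin N → Bool) → ℝ), 1 ≤ d →
    (∀ x, 0 ≤ f x) → (∀ x, f x ≤ 1) → DegLe d f → 0 < var f →
    ∃ i : Fin N, Real.exp (-C * (Real.log (2 * d) * Real.log (4 * d / var f)))
      ≤ EE (fun x => ((f x - f (flp i x)) / 2) ^ 2) := by
  obtain ⟨C, hC, hcold⟩ := cold2
  refine ⟨4 * C + 18, by positivity, ?_⟩
  intro N d f hd f0 f1 hdeg hV
  have hV1 : var f ≤ 1 := var_le_one' f f0 f1
  obtain ⟨ε, hε, hε1, hεC, hcold'⟩ := hcold d (var f) hd hV hV1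
  obtain ⟨w, H⟩ := hyp_exists d hd f f0 f1 hdeg ε hε
  have hd0 : (0:ℝ) < d := by exact_mod_cast (show 0 < d by omega)
  have hk : (0:ℝ) < 512 * (d:ℝ) ^ 4 / ε := by positivity
  obtain ⟨i, hi⟩ := inf_abs H hk
    (Real.exp (-C * (Real.log (2 * d) * Real.log (4 * d / var f))))
    (Real.exp_pos _) (var f) rfl hV (by
      intro S a hS
      refine hcold' N (fun x => f (mix S a x)) (fun i x => w i (mix S a x)) Sᶜ
        (hyp_mix H S a) (degLe_mix d f hdeg S a) ?_ hS
      intro i hi x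
      have : i ∈ S := by simpa using hi
      rw [mix_flp_mem this])
  refine ⟨i, le_trans ?_ hi⟩
  exact main02_num C d (var f) ε _ _ _ hC (by exact_mod_cast hd) hV hV1 hε rfl rfl rfl hεC

/-- The quasi-polynomial Aaronson-Ambainis theorem, values in `[-1,1]`. -/
theorem main03 : ∃ C : ℝ, 0 < C ∧ ∀ (N : ℕ) (d : ℕ) (f : (Fin N → Bool) → ℝ), 1 ≤ d →
    (∀ x, |f x| ≤ 1) → DegLe d f → 0 < var f →
    ∃ i : Fin N, (var f / (4 * d)) ^ (C * Real.log (2 * d))
      ≤ EE (fun x => ((f x - f (flp i x)) / 2) ^ 2) := by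
  obtain ⟨C, hC, hmain⟩ := main02
  refine ⟨2 * C, by positivity, ?_⟩
  intro N d f hd hf hdeg hV
  have hd1 : (1:ℝ) ≤ d := by exact_mod_cast hd
  have hd0 : (0:ℝ) < d := by linarith
  set g : (Fin N → Bool) → ℝ := fun x => (1 + f x) / 2 with hg
  have hg0 : ∀ x, 0 ≤ g x := fun x => by
    have := abs_le.1 (hf x); simp only [hg]; linarith [this.1]
  have hg1 : ∀ x, g x ≤ 1 := fun x => by
    have := abs_le.1 (hf x); simp only [hg]; linarith [this.2]
  have hgE : EE g = (1 + EE f) / 2 := by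
    have : EE g = EE (fun x => (1 / 2 : ℝ) * (1 + f x)) := by
      apply EE_congr; intro x; simp only [hg]; ring
    rw [this, EE_mul, EE_add, EE_const]; ring
  have hgv : var g = var f / 4 := by
    have h2 : EE (fun x => g x ^ 2) = (1 + 2 * EE f + EE (fun x => f x ^ 2)) / 4 := by
      have : EE (fun x => g x ^ 2) = EE (fun x => (1 / 4 : ℝ) * ((1 + 2 * f x) + f x ^ 2)) := by
        apply EE_congr; intro x; simp only [hg]; ring
      rw [this, EE_mul, EE_add, EE_add, EE_const, EE_mul]; ring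
    unfold var
    rw [h2, hgE]; ring
  have hgdeg : DegLe d g := by
    intro S hS
    have h1 := hdeg S hS
    have h0 : ∑ x : Fin N → Bool, ∏ i ∈ S, (-1 : ℝ) ^ (x i).toNat = 0 := by
      obtain ⟨a, ha⟩ : S.Nonempty := by
        rw [← Finset.card_pos]; omega
      have hinv : ∑ x : Fin N → Bool, ∏ i ∈ S, (-1 : ℝ) ^ (x i).toNat
          = ∑ x : Fin N → Bool, -∏ i ∈ S, (-1 : ℝ) ^ (x i).toNat := by
        rw [← Equiv.sum_comp (flpEquiv a) (fun x => ∏ i ∈ S, (-1 : ℝ) ^ (x i).toNat)]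
        refine Finset.sum_congr rfl fun x _ => ?_
        rw [← Finset.mul_prod_erase S _ ha, ← Finset.mul_prod_erase S _ ha]
        have e1 : ∏ i ∈ S.erase a, (-1 : ℝ) ^ ((flpEquiv a x) i).toNat
            = ∏ i ∈ S.erase a, (-1 : ℝ) ^ (x i).toNat := by
          refine Finset.prod_congr rfl fun i hi => ?_
          show (-1 : ℝ) ^ (flp a x i).toNat = _
          rw [flp_ne (Finset.ne_of_mem_erase hi)]
        have e2 : (-1 : ℝ) ^ ((flpEquiv a x) a).toNat = - (-1 : ℝ) ^ (x a).toNat := by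
          show (-1 : ℝ) ^ (flp a x a).toNat = _
          rw [flp_same]
          cases x a <;> simp
        rw [e1, e2]; ring
      rw [Finset.sum_neg_distrib] at hinv
      linarith
    have : ∑ x, g x * ∏ i ∈ S, (-1 : ℝ) ^ (x i).toNat
        = (1 / 2 : ℝ) * (∑ x : Fin N → Bool, ∏ i ∈ S, (-1 : ℝ) ^ (x i).toNat)
          + (1 / 2 : ℝ) * (∑ x, f x * ∏ i ∈ S, (-1 : ℝ) ^ (x i).toNat) := by
      rw [Finset.mul_sum, Finset.mul_sum, ← Finset.sum_add_distrib]
      refine Finset.sum_congr rfl fun x _ => ?_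
      simp only [hg]; ring
    rw [this, h0, h1]; ring
  have hgV : 0 < var g := by rw [hgv]; linarith
  obtain ⟨i, hi⟩ := hmain N d g hd hg0 hg1 hgdeg hgV
  refine ⟨i, ?_⟩
  have hE : EE (fun x => ((f x - f (flp i x)) / 2) ^ 2)
      = 4 * EE (fun x => ((g x - g (flp i x)) / 2) ^ 2) := by
    rw [← EE_mul]
    apply EE_congr; intro x; simp only [hg]; ring
  have hEn : 0 ≤ EE (fun x => ((g x - g (flp i x)) / 2) ^ 2) := EE_nonneg fun x => sq_nonneg _
  rw [hE]
  refine le_trans ?_ (le_trans hi (by linarith))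
  have hVf1 : var f ≤ 1 := by
    have : var g ≤ 1 / 4 := by
      have h1 : var g ≤ EE (fun x => (g x - 1 / 2) ^ 2) := by
        have : EE (fun x => (g x - 1 / 2) ^ 2) = EE (fun x => g x ^ 2) - EE g + 1 / 4 := by
          have : EE (fun x => (g x - 1 / 2) ^ 2) = EE (fun x => (g x ^ 2 - g x) + 1 / 4) := by
            apply EE_congr; intro x; ring
          rw [this, EE_add, EE_sub, EE_const]
        rw [this]; unfold var
        nlinarith [sq_nonneg (EE g - 1 / 2)]
      refine h1.trans ?_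
      rw [← EE_const (N := N) (1 / 4)]
      exact EE_mono fun x => by nlinarith [hg0 x, hg1 x]
    rw [hgv] at this; linarith
  have hq : 0 < var f / (4 * d) := by positivity
  have hlog2d : 0 < Real.log (2 * d) := Real.log_pos (by linarith)
  rw [Real.rpow_def_of_pos hq]
  apply Real.exp_le_exp.2
  rw [hgv]
  have e1 : Real.log (4 * d / (var f / 4)) = Real.log 4 - Real.log (var f / (4 * d)) := by
    rw [← Real.log_div (by norm_num) (by positivity)]
    congr 1
    field_simp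
  have h2 : Real.log 4 ≤ - Real.log (var f / (4 * d)) := by
    rw [← Real.log_inv]
    apply Real.log_le_log (by norm_num)
    rw [inv_div, le_div_iff₀ hV]
    nlinarith
  rw [e1]
  have h3 : Real.log 4 - Real.log (var f / (4 * d)) ≤ -2 * Real.log (var f / (4 * d)) := by linarith
  have h4 := mul_le_mul_of_nonneg_left h3 (mul_nonneg hC.le hlog2d.le)
  calc Real.log (var f / (4 * ↑d)) * (2 * C * Real.log (2 * ↑d))
      = -(C * Real.log (2 * ↑d) * (-2 * Real.log (var f / (4 * ↑d)))) := by ring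
    _ ≤ -(C * Real.log (2 * ↑d) * (Real.log 4 - Real.log (var f / (4 * ↑d)))) := by linarith
    _ = _ := by ring

end Pool.Agent.H572R4.QA
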