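import Pool.Agent.H572R4.QB.Defs2
import Pool.Agent.H572R4.QA.B6a
import Pool.Agent.H572R4.QA.B6b
import Pool.Agent.H572R4.QA.B6c
import Pool.Agent.H572R4.QA.B7a
import Pool.Agent.H572R4.QA.B7b
import Pool.Agent.H572R4.QA.B8b
import Pool.Agent.H572R4.QA.B8c

set_option autoImplicit false

namespace Pool.Agent.H572R4.QA

open Finset Pool.Agent.H572R2

variable {N : ℕ}

theorem inf1_nonneg (f : (Fin N → Bool) → ℝ) (i : Fin N) : 0 ≤ inf1 f i := by
  unfold inf1
  have : 0 ≤ EE (fun x => dd f i x ^ 2) := EE_nonneg fun x => sq_nonneg _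
  linarith

theorem inf1_rs_add (f : (Fin N → Bool) → ℝ) (i j : Fin N) (hij : i ≠ j) :
    inf1 (rs j true f) i + inf1 (rs j false f) i = 2 * inf1 f i := by
  have h : ∀ b, (fun x => dd (rs j b f) i x ^ 2) = rs j b (fun x => dd f i x ^ 2) := by
    intro b
    funext x
    unfold dd rs
    have e : Function.update (flp i x) j b = flp i (Function.update x j b) := by
      unfold flp
      rw [Function.update_comm hij, Function.update_of_ne hij]
    rw [e]
  unfold inf1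
  rw [h, h]
  have := EE_rs (fun x => dd f i x ^ 2) j
  linarith

theorem var_le_inf1 (f : (Fin N → Bool) → ℝ) : var f ≤ ∑ i, inf1 f i := by
  have h0 := poincare f
  have h1 : ∀ i, EE (fun x => (f x - f (flp i x)) ^ 2) = EE (fun x => dd f i x ^ 2) := by
    intro i
    apply EE_congr
    intro x
    unfold dd
    rw [sq_abs]
  simp only [h1] at h0
  unfold var inf1
  rw [← Finset.sum_div]
  linarith

theorem inf1_le {f : (Fin N → Bool) → ℝ} {w : Fin N → (Fin N → Bool) → ℝ} {ε k s₀ : ℝ}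
    (H : Hyp f w ε k s₀) (θ : ℝ) (hθ : 0 < θ) (i : Fin N) :
    inf1 f i ≤ θ * EE (dd f i) / 4 + pp f θ i / 4 := by
  have h3 : EE (fun x => dd f i x ^ 2) ≤ θ * EE (dd f i) + pp f θ i := by
    have h4 : EE (fun x => θ * dd f i x + JJ f θ i x) = θ * EE (dd f i) + pp f θ i := by
      rw [EE_add, EE_mul]
      rfl
    rw [← h4]
    apply EE_mono
    intro x
    have hd0 := B7a_dd_nonneg f i x
    have hd1 := B7a_dd_le_one H.f0 H.f1 i x
    unfold JJ
    split_ifs with h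
    · nlinarith [mul_nonneg hθ.le hd0]
    · push Not at h
      nlinarith
  unfold inf1
  linarith

/-- the terms for one revealed coordinate -/
theorem reveal_term2 (f : (Fin N → Bool) → ℝ) (w : Fin N → (Fin N → Bool) → ℝ)
    (γ ε : ℝ) (T : ℕ) (hth : 0 < th γ ε T) (ca m0 K S cr base s' : ℝ) (A : Finset (Fin N))
    (j : Fin N) (hj : j ∈ A) :
    (∑ i ∈ (A.erase j)ᶜ, pp (rs j true f) (th γ ε T) i
            + Phi2 γ ε T ca m0 K S cr base s' (rs j true f)
                (fun i => rs j true (w i)) (A.erase j)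
            + ∑ i ∈ (A.erase j)ᶜ, pp (rs j false f) (th γ ε T) i
            + Phi2 γ ε T ca m0 K S cr base s' (rs j false f)
                (fun i => rs j false (w i)) (A.erase j)) / 2
      = ∑ i ∈ Aᶜ, pp f (th γ ε T) i
        + 1 / (4 * ca * (m0 * Real.exp ((5 + 4 * Real.log K) * s'))) *
          ((Yh γ ε T (rs j true f) (A.erase j) + Yh γ ε T (rs j false f) (A.erase j)) / 2)
        + Real.exp (s' - S) * ∑ i ∈ A.erase j, inf1 f i
        + ca * ∑ i ∈ A.erase j, EE (w i) + (cr * (S + 1 - s') + base) := by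
  have hjc : j ∉ Aᶜ := by simpa using hj
  have e0 : ∀ b, ∑ i ∈ (A.erase j)ᶜ, pp (rs j b f) (th γ ε T) i
      = ∑ i ∈ Aᶜ, pp (rs j b f) (th γ ε T) i := by
    intro b
    rw [Finset.compl_erase, Finset.sum_insert hjc, pp_rs_self f _ hth j b, zero_add]
  have e1 : ∑ i ∈ Aᶜ, pp (rs j true f) (th γ ε T) i + ∑ i ∈ Aᶜ, pp (rs j false f) (th γ ε T) i
      = 2 * ∑ i ∈ Aᶜ, pp f (th γ ε T) i := by
    rw [← Finset.sum_add_distrib, Finset.mul_sum]
    refine Finset.sum_congr rfl fun i hi => ?_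
    exact pp_rs_add f _ i j (fun h => hjc (h ▸ hi))
  have e2 : ∑ i ∈ A.erase j, inf1 (rs j true f) i
      + ∑ i ∈ A.erase j, inf1 (rs j false f) i
      = 2 * ∑ i ∈ A.erase j, inf1 f i := by
    rw [← Finset.sum_add_distrib, Finset.mul_sum]
    refine Finset.sum_congr rfl fun i hi => ?_
    exact inf1_rs_add f i j (Finset.ne_of_mem_erase hi)
  have e3 : ∑ i ∈ A.erase j, EE (rs j true (w i)) + ∑ i ∈ A.erase j, EE (rs j false (w i))
      = 2 * ∑ i ∈ A.erase j, EE (w i) := by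
    rw [← Finset.sum_add_distrib, Finset.mul_sum]
    refine Finset.sum_congr rfl fun i _ => ?_
    exact EE_rs (w i) j
  rw [e0, e0]
  unfold Phi2
  generalize 1 / (4 * ca * (m0 * Real.exp ((5 + 4 * Real.log K) * s'))) = c1
  generalize Real.exp (s' - S) = c2
  have f1 : ∑ i ∈ Aᶜ, pp (rs j false f) (th γ ε T) i =
      2 * ∑ i ∈ Aᶜ, pp f (th γ ε T) i - ∑ i ∈ Aᶜ, pp (rs j true f) (th γ ε T) i := by linarith
  have f2 : ∑ i ∈ A.erase j, inf1 (rs j false f) i =
      2 * ∑ i ∈ A.erase j, inf1 f i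
        - ∑ i ∈ A.erase j, inf1 (rs j true f) i := by linarith
  have f3 : ∑ i ∈ A.erase j, EE (rs j false (w i)) =
      2 * ∑ i ∈ A.erase j, EE (w i) - ∑ i ∈ A.erase j, EE (rs j true (w i)) := by linarith
  rw [f1, f2, f3]
  ring

theorem reveal2 {f : (Fin N → Bool) → ℝ} {w : Fin N → (Fin N → Bool) → ℝ} {ε k s₀ : ℝ}
    (H : Hyp f w ε k s₀) (hε : 0 < ε) (hk : 0 ≤ k) (hs₀ : 0 ≤ s₀) (γ : ℝ) (hγ : 0 < γ) (T : ℕ)
    (hT : 1 ≤ T) (ca m0 K S cr base s : ℝ) (hca : 0 < ca) (hm0 : 0 < m0) (hK : 1 ≤ K)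
    (hs : 0 ≤ s) (hsS : s ≤ S)
    (hsmall : 4 * ca * (m0 * Real.exp ((5 + 4 * Real.log K) * S)) ≤ 1)
    (hcr : th γ ε T * s₀ / 2 + 4 * (k / (4 * ε ^ 2)) * (s₀ / γ) / (ca * K)
      + (1 / 2 : ℝ) ^ T * (s₀ / γ) / (5 * ca * m0) ≤ cr)
    (A : Finset (Fin N)) (hA : A.Nonempty)
    (ha : ∀ j ∈ A, EE (w j) ≤ m0 * Real.exp ((5 + 4 * Real.log K) * s)) :
    (∑ j ∈ A, ((∑ i ∈ (A.erase j)ᶜ, pp (rs j true f) (th γ ε T) i
            + Phi2 γ ε T ca m0 K S cr base (s + 1 / A.card) (rs j true f)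
                (fun i => rs j true (w i)) (A.erase j)
            + ∑ i ∈ (A.erase j)ᶜ, pp (rs j false f) (th γ ε T) i
            + Phi2 γ ε T ca m0 K S cr base (s + 1 / A.card) (rs j false f)
                (fun i => rs j false (w i)) (A.erase j)) / 2
          + EE (dd f j) ^ 2 / 4)) / A.card
      ≤ ∑ i ∈ Aᶜ, pp f (th γ ε T) i + Phi2 γ ε T ca m0 K S cr base s f w A := by
  have hth : 0 < th γ ε T := by unfold th; positivity
  have hn1 : (1 : ℝ) ≤ A.card := by exact_mod_cast hA.card_pos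
  have hlogK : 0 ≤ Real.log K := Real.log_nonneg hK
  have hK0 : 0 < K := by linarith
  -- abbreviations
  obtain ⟨L, hL⟩ : ∃ L, L = 5 + 4 * Real.log K := ⟨_, rfl⟩
  have hL0 : 0 ≤ L := by rw [hL]; positivity
  obtain ⟨m, hm⟩ : ∃ m, m = m0 * Real.exp (L * s) := ⟨_, rfl⟩
  have hm0' : 0 < m := by rw [hm]; positivity
  have hmm : m0 ≤ m := by
    rw [hm]
    have : 1 ≤ Real.exp (L * s) := Real.one_le_exp (by positivity)
    nlinarith
  have hyav := yh_avg H hε hk γ hγ T hT K hK A hA m hm0'.le (by rw [hm, hL]; exact ha)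
  -- the sum of the squares of the influences
  have hD : ∑ j ∈ A, EE (dd f j) ^ 2 ≤ 2 * th γ ε T * s₀ + 2 * Yh γ ε T f A := by
    have h1 : ∑ j ∈ A, EE (dd f j) ^ 2 ≤
        ∑ j ∈ A, (2 * th γ ε T * EE (dd f j) + 2 * pp f (th γ ε T) j ^ 2) :=
      Finset.sum_le_sum fun j _ => dd_sq_le H _ hth j
    rw [Finset.sum_add_distrib, ← Finset.mul_sum, ← Finset.mul_sum] at h1
    have h2 : ∑ j ∈ A, EE (dd f j) ≤ s₀ := by
      rw [← EE_sum]
      calc EE (fun x => ∑ j ∈ A, dd f j x) ≤ EE (fun _ => s₀) := by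
            apply EE_mono
            intro x
            refine le_trans ?_ (H.infl x)
            exact Finset.sum_le_sum_of_subset_of_nonneg (Finset.subset_univ _)
              (fun i _ _ => abs_nonneg _)
        _ = s₀ := EE_const _
    have h3 : ∑ j ∈ A, pp f (th γ ε T) j ^ 2 ≤ Yh γ ε T f A := by
      unfold Yh
      have h4 : T - 1 ∈ Finset.range T := Finset.mem_range.2 (by omega)
      have h5 := Finset.single_le_sum (f := fun t => (1 / 2 : ℝ) ^ (T - 1 - t) *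
        ∑ i ∈ A, pp f (th γ ε (t + 1)) i ^ 2)
        (fun t _ => mul_nonneg (by positivity) (Finset.sum_nonneg fun i _ => sq_nonneg _)) h4
      simp only [Nat.sub_self, pow_zero, one_mul, Nat.sub_add_cancel hT] at h5
      exact h5
    have h4 : 2 * th γ ε T * ∑ j ∈ A, EE (dd f j) ≤ 2 * th γ ε T * s₀ :=
      mul_le_mul_of_nonneg_left h2 (by positivity)
    linarith
  have hPa0 : 0 ≤ ∑ i ∈ A, inf1 f i :=
    Finset.sum_nonneg fun i _ => inf1_nonneg f i
  have hW0 : 0 ≤ ∑ i ∈ A, EE (w i) := Finset.sum_nonneg fun i _ => EE_nonneg (H.w0 i)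
  have hY0 : 0 ≤ Yh γ ε T f A := by
    unfold Yh
    exact Finset.sum_nonneg fun t _ => mul_nonneg (by positivity)
      (Finset.sum_nonneg fun i _ => sq_nonneg _)
  -- rewrite the left side
  have e1 : ∀ j ∈ A, ((∑ i ∈ (A.erase j)ᶜ, pp (rs j true f) (th γ ε T) i
            + Phi2 γ ε T ca m0 K S cr base (s + 1 / A.card) (rs j true f)
                (fun i => rs j true (w i)) (A.erase j)
            + ∑ i ∈ (A.erase j)ᶜ, pp (rs j false f) (th γ ε T) i
            + Phi2 γ ε T ca m0 K S cr base (s + 1 / A.card) (rs j false f)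
                (fun i => rs j false (w i)) (A.erase j)) / 2
          + EE (dd f j) ^ 2 / 4) = (∑ i ∈ Aᶜ, pp f (th γ ε T) i
        + 1 / (4 * ca * (m0 * Real.exp ((5 + 4 * Real.log K) * (s + 1 / A.card)))) *
          ((Yh γ ε T (rs j true f) (A.erase j) + Yh γ ε T (rs j false f) (A.erase j)) / 2)
        + Real.exp (s + 1 / A.card - S) * ∑ i ∈ A.erase j, inf1 f i
        + ca * ∑ i ∈ A.erase j, EE (w i) + (cr * (S + 1 - (s + 1 / A.card)) + base))
        + EE (dd f j) ^ 2 / 4 := by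
    intro j hj
    rw [reveal_term2 f w γ ε T hth ca m0 K S cr base (s + 1 / A.card) A j hj]
  rw [Finset.sum_congr rfl e1]
  simp only [Finset.sum_add_distrib]
  rw [← Finset.mul_sum, ← Finset.mul_sum, ← Finset.mul_sum, reveal_sum, reveal_sum,
    ← Finset.sum_div, ← Finset.sum_div, Finset.sum_const, Finset.sum_const, Finset.sum_const, nsmul_eq_mul,
    nsmul_eq_mul, nsmul_eq_mul]
  unfold Phi2
  rw [← hL]
  generalize ∑ i ∈ Aᶜ, pp f (th γ ε T) i = Pc
  generalize ∑ i ∈ A, inf1 f i = Pa at *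
  generalize ∑ i ∈ A, EE (w i) = Wt at *
  generalize Yh γ ε T f A = Y at *
  generalize ∑ j ∈ A, EE (dd f j) ^ 2 = D at *
  rw [← Finset.sum_div] at hyav
  obtain ⟨Ys, hYs⟩ : ∃ Ys, Ys = (∑ j ∈ A, (Yh γ ε T (rs j true f) (A.erase j) +
    Yh γ ε T (rs j false f) (A.erase j))) / 2 := ⟨_, rfl⟩
  rw [← hYs] at hyav
  rw [← hYs]
  generalize (A.card : ℝ) = n at *
  have hn0 : 0 < n := by linarith
  -- constants
  obtain ⟨Cy, hCy⟩ : ∃ Cy, Cy = 1 / (4 * ca * m) := ⟨_, rfl⟩
  have hCy0 : 0 < Cy := by rw [hCy]; positivity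
  have hCy1 : 1 ≤ Cy := by
    rw [hCy, le_div_iff₀ (by positivity), one_mul]
    refine le_trans ?_ hsmall
    rw [← hL]
    have h1 : m ≤ m0 * Real.exp (L * S) := by
      rw [hm]
      have : Real.exp (L * s) ≤ Real.exp (L * S) :=
        Real.exp_le_exp.2 (mul_le_mul_of_nonneg_left hsS hL0)
      exact mul_le_mul_of_nonneg_left this hm0.le
    exact mul_le_mul_of_nonneg_left h1 (by positivity)
  have hC' : 1 / (4 * ca * (m0 * Real.exp (L * (s + 1 / n)))) = Cy * Real.exp (-(L / n)) := by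
    rw [hCy, hm, Real.exp_neg, show L * (s + 1 / n) = L * s + L / n by ring, Real.exp_add]
    field_simp
  obtain ⟨src, hsrc⟩ : ∃ src, src = 4 / 5 * (1 / 2 : ℝ) ^ T * (s₀ / γ)
    + 16 * (k / (4 * ε ^ 2)) * m / K * (s₀ / γ) := ⟨_, rfl⟩
  have hsrc0 : 0 ≤ src := by rw [hsrc]; positivity
  rw [← hsrc] at hyav
  have hexp1 : Real.exp (-(L / n)) ≤ 1 := by
    rw [Real.exp_le_one_iff]
    have : 0 ≤ L / n := by positivity
    linarith
  -- step A
  have hA1 : Cy * Real.exp (-(L / n)) * (Ys / n) ≤ Cy * ((1 - 1 / (2 * n)) * Y) + Cy * src / n := by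
    have h1 : Real.exp (-(L / n)) * (Ys / n) ≤
        Real.exp (-(L / n)) * ((1 + (L - 11 / 5) / n) * Y + src / n) := by
      refine mul_le_mul_of_nonneg_left ?_ (Real.exp_pos _).le
      refine hyav.trans (le_of_eq ?_)
      rw [hL]; ring
    have h2 : Real.exp (-(L / n)) * (1 + (L - 11 / 5) / n) * Y ≤ (1 - 1 / (2 * n)) * Y :=
      mul_le_mul_of_nonneg_right (reveal_exp n L hn1) hY0
    have h3 : Real.exp (-(L / n)) * (src / n) ≤ 1 * (src / n) :=
      mul_le_mul_of_nonneg_right hexp1 (by positivity)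
    have h4 : Real.exp (-(L / n)) * (Ys / n) ≤ (1 - 1 / (2 * n)) * Y + src / n := by
      calc Real.exp (-(L / n)) * (Ys / n) ≤ _ := h1
        _ = Real.exp (-(L / n)) * (1 + (L - 11 / 5) / n) * Y
            + Real.exp (-(L / n)) * (src / n) := by ring
        _ ≤ _ := by linarith
    calc Cy * Real.exp (-(L / n)) * (Ys / n) = Cy * (Real.exp (-(L / n)) * (Ys / n)) := by ring
      _ ≤ Cy * ((1 - 1 / (2 * n)) * Y + src / n) := mul_le_mul_of_nonneg_left h4 hCy0.le
      _ = _ := by ring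
  -- step B
  have hB1 : Real.exp (s + 1 / n - S) * (1 - 1 / n) * Pa ≤ Real.exp (s - S) * Pa := by
    refine mul_le_mul_of_nonneg_right ?_ hPa0
    rw [show s + 1 / n - S = (s - S) + 1 / n by ring, Real.exp_add, mul_assoc]
    calc Real.exp (s - S) * (Real.exp (1 / n) * (1 - 1 / n)) ≤ Real.exp (s - S) * 1 :=
          mul_le_mul_of_nonneg_left (reveal_exp2 n) (Real.exp_pos _).le
      _ = _ := mul_one _
  -- step C
  have hC1 : ca * (1 - 1 / n) * Wt ≤ ca * Wt := by
    have h1 : 0 ≤ ca * Wt * (1 / n) := by positivity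
    linarith [h1, show ca * (1 - 1 / n) * Wt = ca * Wt - ca * Wt * (1 / n) by ring]
  -- step D
  have hD1 : D / 4 / n ≤ th γ ε T * s₀ / (2 * n) + Y / (2 * n) := by
    rw [show th γ ε T * s₀ / (2 * n) + Y / (2 * n) = (2 * th γ ε T * s₀ + 2 * Y) / 4 / n by
      field_simp; ring]
    gcongr
  -- step E
  have hE1 : Y / (2 * n) ≤ Cy * (1 / (2 * n) * Y) := by
    have h1 : 0 ≤ Y / (2 * n) := by positivity
    calc Y / (2 * n) = 1 * (Y / (2 * n)) := (one_mul _).symm
      _ ≤ Cy * (Y / (2 * n)) := mul_le_mul_of_nonneg_right hCy1 h1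
      _ = _ := by ring
  -- step F
  have hF1 : Cy * src / n + th γ ε T * s₀ / (2 * n) ≤ cr / n := by
    have h1 : Cy * src + th γ ε T * s₀ / 2 ≤ cr := by
      refine le_trans ?_ hcr
      have h2 : Cy * src = 4 * (k / (4 * ε ^ 2)) * (s₀ / γ) / (ca * K)
          + (1 / 2 : ℝ) ^ T * (s₀ / γ) / (5 * ca * m) := by
        rw [hCy, hsrc]
        field_simp
        ring
      have h3 : (1 / 2 : ℝ) ^ T * (s₀ / γ) / (5 * ca * m) ≤
          (1 / 2 : ℝ) ^ T * (s₀ / γ) / (5 * ca * m0) := by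
        apply div_le_div_of_nonneg_left (by positivity) (by positivity)
        exact mul_le_mul_of_nonneg_left hmm (by positivity)
      rw [h2]
      linarith
    rw [show Cy * src / n + th γ ε T * s₀ / (2 * n) = (Cy * src + th γ ε T * s₀ / 2) / n by
      field_simp]
    gcongr
  rw [hC', ← hm, ← hCy]
  have hfin : (n * Pc + Cy * Real.exp (-(L / n)) * Ys + Real.exp (s + 1 / n - S) * (n * Pa - Pa)
      + ca * (n * Wt - Wt) + n * (cr * (S + 1 - (s + 1 / n)) + base) + D / 4) / n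
      = Pc + Cy * Real.exp (-(L / n)) * (Ys / n) + Real.exp (s + 1 / n - S) * (1 - 1 / n) * Pa
        + ca * (1 - 1 / n) * Wt + (cr * (S + 1 - s) - cr / n + base) + D / 4 / n := by
    field_simp
    ring
  refine le_trans (le_of_eq ?_) (le_trans (le_of_eq hfin) ?_)
  · ring
  · have h1 : Cy * ((1 - 1 / (2 * n)) * Y) + Cy * (1 / (2 * n) * Y) = Cy * Y := by ring
    linarith

end Pool.Agent.H572R4.QA
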