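import Pool.Agent.H572R4.QB.Main2

set_option autoImplicit false

namespace Pool.Agent.H572R4.QA

open Finset Pool.Agent.H572R2

variable {N : ℕ}

/-- Sign of a bit: `true ↦ -1`. -/
def bu (b : Bool) : ℤˣ := if b then -1 else 1

/-- Bit of a sign. -/
def ub (u : ℤˣ) : Bool := if u = -1 then true else false

/-- `Bool ≃ ℤˣ`. -/
def buEquiv : Bool ≃ ℤˣ where
  toFun := bu
  invFun := ub
  left_inv := by intro b; cases b <;> decide
  right_inv := by intro u; rcases Int.units_eq_one_or u with h | h <;> subst h <;> decide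

/-- The cubes are equivalent. -/
def cubeEquiv (N : ℕ) : (Fin N → Bool) ≃ (Fin N → ℤˣ) := Equiv.piCongrRight fun _ => buEquiv

lemma cubeEquiv_apply (x : Fin N → Bool) (i : Fin N) : cubeEquiv N x i = bu (x i) := rfl

lemma cubeEquiv_update (x : Fin N → Bool) (j : Fin N) (b : Bool) :
    cubeEquiv N (Function.update x j b) = Function.update (cubeEquiv N x) j (bu b) := by
  funext i
  by_cases h : i = j
  · subst h; simp [cubeEquiv_apply]
  · simp [cubeEquiv_apply, h]

/-- The theorem for `{-1,1}^n` in the form of the strengthened conjecture. -/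
theorem main04 : ∃ C : ℝ, 0 < C ∧ ∀ (n : ℕ) (f : (Fin n → ℤˣ) → ℝ) (d : ℕ), 1 ≤ d →
    (∀ S : Finset (Fin n), d < S.card →
      ∑ x : Fin n → ℤˣ, f x * ∏ i ∈ S, ((x i : ℤ) : ℝ) = 0) →
    0 < (∑ x : Fin n → ℤˣ, f x ^ 2) / (2 : ℝ) ^ n
        - ((∑ x : Fin n → ℤˣ, f x) / (2 : ℝ) ^ n) ^ 2 →
    (⨆ x : Fin n → ℤˣ, |f x|) *
      (((∑ x : Fin n → ℤˣ, f x ^ 2) / (2 : ℝ) ^ n
        - ((∑ x : Fin n → ℤˣ, f x) / (2 : ℝ) ^ n) ^ 2)
          / (4 * (d : ℝ) * (⨆ x : Fin n → ℤˣ, |f x|) ^ 2)) ^ (C * Real.log (2 * (d : ℝ)))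
    ≤ ⨆ j : Fin n, Real.sqrt
          ((∑ x : Fin n → ℤˣ,
              ((f (Function.update x j 1) - f (Function.update x j (-1))) / 2) ^ 2)
            / (2 : ℝ) ^ n) := by
  obtain ⟨C, hC, h⟩ := main03
  refine ⟨C / 2, by positivity, ?_⟩
  intro n f d hd hdeg hV
  set B : ℝ := ⨆ x : Fin n → ℤˣ, |f x| with hB
  have hle : ∀ x, |f x| ≤ B := fun x =>
    le_ciSup (f := fun x : Fin n → ℤˣ => |f x|) (Set.finite_range _).bddAbove x
  have hB0 : 0 < B := by
    by_contra hcon
    push Not at hcon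
    have hz : ∀ x, f x = 0 := fun x => by
      have := hle x
      have h2 := abs_nonneg (f x)
      exact abs_eq_zero.1 (by linarith)
    simp [hz] at hV
  set g : (Fin n → Bool) → ℝ := fun x => f (cubeEquiv n x) / B with hg
  have hg1 : ∀ x, |g x| ≤ 1 := by
    intro x
    simp only [hg]
    rw [abs_div, abs_of_pos hB0, div_le_one hB0]
    exact hle _
  have hsum : ∀ G : (Fin n → ℤˣ) → ℝ, ∑ x, G (cubeEquiv n x) = ∑ x, G x :=
    fun G => Equiv.sum_comp (cubeEquiv n) G
  have hbu : ∀ b : Bool, (((bu b : ℤˣ) : ℤ) : ℝ) = (-1 : ℝ) ^ b.toNat := by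
    intro b; cases b <;> simp [bu]
  have hgdeg : DegLe d g := by
    intro S hS
    have h1 := hdeg S hS
    rw [← hsum] at h1
    have : ∑ x, g x * ∏ i ∈ S, (-1 : ℝ) ^ (x i).toNat
        = (∑ x, f (cubeEquiv n x) * ∏ i ∈ S, (((cubeEquiv n x i : ℤˣ) : ℤ) : ℝ)) / B := by
      rw [Finset.sum_div]
      refine Finset.sum_congr rfl fun x _ => ?_
      simp only [hg, cubeEquiv_apply, hbu]
      ring
    rw [this, h1, zero_div]
  set V : ℝ := (∑ x : Fin n → ℤˣ, f x ^ 2) / (2 : ℝ) ^ n
        - ((∑ x : Fin n → ℤˣ, f x) / (2 : ℝ) ^ n) ^ 2 with hVdef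
  have hgv : var g = V / B ^ 2 := by
    have e1 : EE (fun x => g x ^ 2) = (∑ x : Fin n → ℤˣ, f x ^ 2) / (2 : ℝ) ^ n / B ^ 2 := by
      unfold EE
      rw [← hsum (fun x => f x ^ 2), div_right_comm]
      congr 1
      rw [Finset.sum_div]
      refine Finset.sum_congr rfl fun x _ => ?_
      simp only [hg]; ring
    have e2 : EE g = (∑ x : Fin n → ℤˣ, f x) / (2 : ℝ) ^ n / B := by
      unfold EE
      rw [← hsum f, div_right_comm]
      congr 1
      rw [Finset.sum_div]
    unfold var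
    rw [e1, e2, hVdef]
    ring
  have hgV : 0 < var g := by rw [hgv]; positivity
  obtain ⟨j, hj⟩ := h n d g hd hg1 hgdeg hgV
  have hinf : EE (fun x => ((g x - g (flp j x)) / 2) ^ 2)
      = (∑ x : Fin n → ℤˣ,
          ((f (Function.update x j 1) - f (Function.update x j (-1))) / 2) ^ 2)
            / (2 : ℝ) ^ n / B ^ 2 := by
    unfold EE
    rw [← hsum (fun x => ((f (Function.update x j 1) - f (Function.update x j (-1))) / 2) ^ 2),
      div_right_comm]
    congr 1
    rw [Finset.sum_div]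
    refine Finset.sum_congr rfl fun x _ => ?_
    have e1 : Function.update (cubeEquiv n x) j 1 = cubeEquiv n (Function.update x j false) := by
      rw [cubeEquiv_update]; rfl
    have e2 : Function.update (cubeEquiv n x) j (-1) = cubeEquiv n (Function.update x j true) := by
      rw [cubeEquiv_update]; rfl
    rw [e1, e2]
    simp only [hg]
    unfold flp
    cases hx : x j
    · have h1 : Function.update x j false = x := by
        rw [← hx]; exact Function.update_eq_self j x
      simp only [h1, Bool.not_false]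
      ring
    · have h1 : Function.update x j true = x := by
        rw [← hx]; exact Function.update_eq_self j x
      simp only [h1, Bool.not_true]
      ring
  rw [hinf, hgv] at hj
  set I : ℝ := (∑ x : Fin n → ℤˣ,
          ((f (Function.update x j 1) - f (Function.update x j (-1))) / 2) ^ 2)
            / (2 : ℝ) ^ n with hI
  have hI0 : 0 ≤ I := by
    rw [hI]
    exact div_nonneg (Finset.sum_nonneg fun x _ => sq_nonneg _) (by positivity)
  have hsup : Real.sqrt I ≤ ⨆ j : Fin n, Real.sqrt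
          ((∑ x : Fin n → ℤˣ,
              ((f (Function.update x j 1) - f (Function.update x j (-1))) / 2) ^ 2)
            / (2 : ℝ) ^ n) :=
    le_ciSup (f := fun j : Fin n => Real.sqrt ((∑ x : Fin n → ℤˣ,
              ((f (Function.update x j 1) - f (Function.update x j (-1))) / 2) ^ 2)
            / (2 : ℝ) ^ n)) (Set.finite_range _).bddAbove j
  refine le_trans ?_ hsup
  have hd1 : (1:ℝ) ≤ d := by exact_mod_cast hd
  have hq : 0 < V / (4 * d * B ^ 2) := by positivity
  apply Real.le_sqrt_of_sq_le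
  rw [mul_pow, ← Real.rpow_natCast ((V / (4 * ↑d * B ^ 2)) ^ (C / 2 * Real.log (2 * ↑d))) 2,
    ← Real.rpow_mul hq.le]
  have e3 : C / 2 * Real.log (2 * ↑d) * ((2 : ℕ) : ℝ) = C * Real.log (2 * d) := by
    push_cast; ring
  rw [e3]
  have e4 : V / B ^ 2 / (4 * ↑d) = V / (4 * ↑d * B ^ 2) := by
    field_simp
  rw [e4, le_div_iff₀ (by positivity)] at hj
  linarith

end Pool.Agent.H572R4.QA
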